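import Pool.Agent.Lib.MP_3e612f_nt.ZE.D.Basic

/-! Averages: shifts, products, Cauchy-Schwarz. -/

set_option autoImplicit false

namespace Pool.Agent.Lib.MP_3e612f_nt.ZE

open Finset MeasureTheory Filter Topology

private theorem avg_aux {E : Type} [NormedAddCommGroup E] (N s : ℕ) (M : ℝ) (φ : ℕ → E)
    (hφ : ∀ n, ‖φ n‖ ≤ M) :
    ‖∑ a ∈ range N, φ (a + s) - ∑ a ∈ range N, φ a‖ ≤ 2 * s * M := by
  have h1 := Finset.sum_range_add φ s N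
  have h2 := Finset.sum_range_add φ N s
  rw [add_comm N s] at h2
  have h3 : ∑ a ∈ range N, φ (a + s) = ∑ a ∈ range N, φ (s + a) :=
    sum_congr rfl fun a _ => by rw [add_comm]
  have h4 : ∑ a ∈ range N, φ (a + s) - ∑ a ∈ range N, φ a =
      ∑ x ∈ range s, φ (N + x) - ∑ x ∈ range s, φ x := by
    rw [h3]
    have h5 := h1.symm.trans h2
    rw [sub_eq_sub_iff_add_eq_add, add_comm, h5, add_comm]
  rw [h4]
  have h6 : ∀ ψ : ℕ → E, (∀ n, ‖ψ n‖ ≤ M) → ‖∑ x ∈ range s, ψ x‖ ≤ s * M := by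
    intro ψ hψ
    refine (norm_sum_le _ _).trans ((sum_le_sum fun x _ => hψ x).trans ?_)
    rw [sum_const, card_range, nsmul_eq_mul]
  refine (norm_sub_le _ _).trans ?_
  have h7 := h6 (fun x => φ (N + x)) (fun n => hφ _)
  have h8 := h6 φ hφ
  linarith

theorem avg_shift (N s : ℕ) (hN : 1 ≤ N) (φ : ℕ → ℂ) (hφ : ∀ n, ‖φ n‖ ≤ 1) :
    ‖(∑ a ∈ range N, φ (a + s)) / (N : ℂ) - (∑ a ∈ range N, φ a) / (N : ℂ)‖ ≤ 2 * s / N := by
  have hN0 : (0 : ℝ) < N := by exact_mod_cast hN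
  rw [← sub_div, norm_div, Complex.norm_natCast]
  refine div_le_div_of_nonneg_right ?_ hN0.le
  have h := avg_aux N s 1 φ hφ
  linarith

theorem avg_shift2 (N s t : ℕ) (hN : 1 ≤ N) (φ : ℕ → ℕ → ℝ) (hφ : ∀ a b, |φ a b| ≤ 1) :
    |(∑ a ∈ range N, ∑ b ∈ range N, φ (a + s) (b + t)) / (N : ℝ) ^ 2 - (∑ a ∈ range N, ∑ b ∈ range N, φ a b) / (N : ℝ) ^ 2| ≤ 2 * s / N + 2 * t / N := by
  have hN0 : (0 : ℝ) < N := by exact_mod_cast hN
  have h1 : ∀ a, |∑ b ∈ range N, φ a (b + t)| ≤ N := by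
    intro a
    refine (abs_sum_le_sum_abs _ _).trans ((sum_le_sum fun b _ => hφ a (b + t)).trans ?_)
    rw [sum_const, card_range, nsmul_eq_mul, mul_one]
  have h2 := avg_aux N s (N : ℝ) (fun a => ∑ b ∈ range N, φ a (b + t)) (fun a => by
    rw [Real.norm_eq_abs]; exact h1 a)
  rw [Real.norm_eq_abs] at h2
  have h3 : ∀ a, |∑ b ∈ range N, φ a (b + t) - ∑ b ∈ range N, φ a b| ≤ 2 * t := by
    intro a
    have h := avg_aux N t (1 : ℝ) (fun b => φ a b) (fun b => by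
      rw [Real.norm_eq_abs]; exact hφ a b)
    rw [Real.norm_eq_abs] at h
    linarith
  have h4 : |∑ a ∈ range N, ∑ b ∈ range N, φ a (b + t) - ∑ a ∈ range N, ∑ b ∈ range N, φ a b| ≤
      N * (2 * t) := by
    rw [← sum_sub_distrib]
    refine (abs_sum_le_sum_abs _ _).trans ((sum_le_sum fun a _ => h3 a).trans ?_)
    rw [sum_const, card_range, nsmul_eq_mul]
  rw [← sub_div, abs_div, abs_of_pos (pow_pos hN0 2), div_le_iff₀ (pow_pos hN0 2)]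
  have h5 : (2 * (s : ℝ) / N + 2 * t / N) * (N : ℝ) ^ 2 = 2 * s * N + N * (2 * t) := by
    field_simp
  rw [h5]
  have h6 := abs_sub_le (∑ a ∈ range N, ∑ b ∈ range N, φ (a + s) (b + t))
    (∑ a ∈ range N, ∑ b ∈ range N, φ a (b + t)) (∑ a ∈ range N, ∑ b ∈ range N, φ a b)
  linarith

theorem prod_sub_le {R : ℕ} (u v : Fin R → ℝ) (hu : ∀ l, |u l| ≤ 1) (hv : ∀ l, |v l| ≤ 1) : |∏ l, u l - ∏ l, v l| ≤ ∑ l, |u l - v l| := by
  induction R with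
  | zero => simp
  | succ R ih =>
    rw [Fin.prod_univ_succ, Fin.prod_univ_succ, Fin.sum_univ_succ]
    have h1 := ih (fun l => u l.succ) (fun l => v l.succ) (fun l => hu _) (fun l => hv _)
    have h2 : |∏ l : Fin R, v l.succ| ≤ 1 := by
      rw [abs_prod]
      exact prod_le_one (fun l _ => abs_nonneg _) (fun l _ => hv _)
    have h3 : u 0 * ∏ l : Fin R, u l.succ - v 0 * ∏ l : Fin R, v l.succ =
        u 0 * (∏ l : Fin R, u l.succ - ∏ l : Fin R, v l.succ) +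
          (u 0 - v 0) * ∏ l : Fin R, v l.succ := by ring
    rw [h3]
    refine (abs_add_le _ _).trans ?_
    rw [abs_mul, abs_mul]
    have h4 : |u 0| * |∏ l : Fin R, u l.succ - ∏ l : Fin R, v l.succ| ≤
        1 * ∑ l : Fin R, |u l.succ - v l.succ| :=
      mul_le_mul (hu 0) h1 (abs_nonneg _) zero_le_one
    have h5 : |u 0 - v 0| * |∏ l : Fin R, v l.succ| ≤ |u 0 - v 0| * 1 :=
      mul_le_mul_of_nonneg_left h2 (abs_nonneg _)
    linarith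

/-- Cauchy-Schwarz: `‖E_i f_i E_s g_{i,s}‖² ≤ E_i |E_s g_{i,s}|² = E_i E_{s,s'} g_{i,s} conj g_{i,s'} ≤ E_{s,s'} ‖E_i g_{i,s} conj g_{i,s'}‖` -/
theorem cs_avg {ι : Type} (I : Finset ι) (H : ℕ) (f : ι → ℂ) (hf : ∀ i ∈ I, ‖f i‖ ≤ 1) (g : ι → ℕ → ℂ) :
    ‖(∑ i ∈ I, f i * ((∑ s ∈ range H, g i s) / (H : ℂ))) / (I.card : ℂ)‖ ^ 2 ≤
      (∑ s ∈ range H, ∑ s' ∈ range H, ‖(∑ i ∈ I, g i s * (starRingEnd ℂ) (g i s')) / (I.card : ℂ)‖) / (H : ℝ) ^ 2 := by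
  classical
  set A : ι → ℂ := fun i => (∑ s ∈ range H, g i s) / (H : ℂ) with hA
  have e1 : ∀ i, ((‖A i‖ ^ 2 : ℝ) : ℂ) =
      (∑ s ∈ range H, ∑ s' ∈ range H, g i s * (starRingEnd ℂ) (g i s')) / (H : ℂ) ^ 2 := by
    intro i
    have h1 : ((‖A i‖ ^ 2 : ℝ) : ℂ) = A i * (starRingEnd ℂ) (A i) := by
      rw [Complex.mul_conj, Complex.normSq_eq_norm_sq]
    rw [h1, hA]
    simp only [map_div₀, map_sum, map_natCast]
    rw [div_mul_div_comm, sum_mul_sum, ← pow_two]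
  have e2 : ((∑ i ∈ I, ‖A i‖ ^ 2 : ℝ) : ℂ) / (I.card : ℂ) =
      (∑ s ∈ range H, ∑ s' ∈ range H,
        (∑ i ∈ I, g i s * (starRingEnd ℂ) (g i s')) / (I.card : ℂ)) / (H : ℂ) ^ 2 := by
    rw [Complex.ofReal_sum, sum_congr rfl fun i _ => e1 i, ← sum_div, div_right_comm]
    congr 1
    rw [sum_comm, sum_div]
    refine sum_congr rfl fun s _ => ?_
    rw [sum_comm, sum_div]
  have e3 : (∑ i ∈ I, ‖A i‖ ^ 2) / (I.card : ℝ) ≤
      (∑ s ∈ range H, ∑ s' ∈ range H, ‖(∑ i ∈ I, g i s * (starRingEnd ℂ) (g i s')) / (I.card : ℂ)‖) / (H : ℝ) ^ 2 := by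
    have h1 : (∑ i ∈ I, ‖A i‖ ^ 2) / (I.card : ℝ) =
        ‖((∑ i ∈ I, ‖A i‖ ^ 2 : ℝ) : ℂ) / (I.card : ℂ)‖ := by
      rw [norm_div, Complex.norm_real, Complex.norm_natCast, Real.norm_of_nonneg]
      exact sum_nonneg fun i _ => sq_nonneg _
    rw [h1, e2, norm_div, norm_pow, Complex.norm_natCast]
    refine div_le_div_of_nonneg_right ?_ (by positivity)
    exact (norm_sum_le _ _).trans (sum_le_sum fun s _ => norm_sum_le _ _)
  refine le_trans ?_ e3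
  rcases Nat.eq_zero_or_pos I.card with h0 | h0
  · rw [h0]
    simp
  · have hc : (0 : ℝ) < I.card := by exact_mod_cast h0
    have h1 : ‖∑ i ∈ I, f i * A i‖ ≤ ∑ i ∈ I, ‖A i‖ := by
      refine (norm_sum_le _ _).trans (sum_le_sum fun i hi => ?_)
      rw [norm_mul]
      have := mul_le_mul_of_nonneg_right (hf i hi) (norm_nonneg (A i))
      linarith
    have h2 : (∑ i ∈ I, ‖A i‖) ^ 2 ≤ I.card * ∑ i ∈ I, ‖A i‖ ^ 2 := sq_sum_le_card_mul_sum_sq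
    rw [norm_div, Complex.norm_natCast, div_pow, div_le_div_iff₀ (by positivity) hc]
    have h3 : ‖∑ i ∈ I, f i * A i‖ ^ 2 ≤ I.card * ∑ i ∈ I, ‖A i‖ ^ 2 :=
      (pow_le_pow_left₀ (norm_nonneg _) h1 2).trans h2
    calc ‖∑ i ∈ I, f i * A i‖ ^ 2 * (I.card : ℝ) ≤ (I.card * ∑ i ∈ I, ‖A i‖ ^ 2) * I.card :=
          mul_le_mul_of_nonneg_right h3 hc.le
      _ = (∑ i ∈ I, ‖A i‖ ^ 2) * (I.card : ℝ) ^ 2 := by ring

/-- `(u + v)^n ≤ u^n + n 2^n v` for `0 ≤ u ≤ 1`, `0 ≤ v ≤ 1` -/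
theorem add_pow_le (n : ℕ) (u v : ℝ) (hu : 0 ≤ u) (hu1 : u ≤ 1) (hv : 0 ≤ v) (hv1 : v ≤ 1) : (u + v) ^ n ≤ u ^ n + n * 2 ^ n * v := by
  induction n with
  | zero => simp
  | succ n ih =>
    have h0 : (u + v) ^ n ≤ 2 ^ n := pow_le_pow_left₀ (by linarith) (by linarith) n
    have h1 : u * (u + v) ^ n ≤ u * (u ^ n + n * 2 ^ n * v) := mul_le_mul_of_nonneg_left ih hu
    have h2 : v * (u + v) ^ n ≤ v * 2 ^ n := mul_le_mul_of_nonneg_left h0 hv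
    have h3 : u * (n * 2 ^ n * v) ≤ 1 * (n * 2 ^ n * v) :=
      mul_le_mul_of_nonneg_right hu1 (by positivity)
    have h4 : (0 : ℝ) ≤ (n + 1) * 2 ^ n * v := by positivity
    calc (u + v) ^ (n + 1) = u * (u + v) ^ n + v * (u + v) ^ n := by ring
      _ ≤ u * (u ^ n + n * 2 ^ n * v) + v * 2 ^ n := add_le_add h1 h2
      _ = u ^ (n + 1) + u * (n * 2 ^ n * v) + v * 2 ^ n := by ring
      _ ≤ u ^ (n + 1) + 1 * (n * 2 ^ n * v) + v * 2 ^ n := by linarith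
      _ = u ^ (n + 1) + (n + 1) * 2 ^ n * v := by ring
      _ ≤ u ^ (n + 1) + (n + 1) * 2 ^ n * v + (n + 1) * 2 ^ n * v := by linarith
      _ = u ^ (n + 1) + ((n + 1 : ℕ) : ℝ) * 2 ^ (n + 1) * v := by
        push_cast
        ring

theorem psi_nonneg (H k : ℕ) (w : ℕ → ℂ) (j : ℕ) : 0 ≤ psi H k w j := by
  induction k generalizing w with
  | zero =>
    unfold psi
    positivity
  | succ k ih =>
    unfold psi
    exact div_nonneg (sum_nonneg fun a _ => sum_nonneg fun b _ => ih _) (by positivity)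

end Pool.Agent.Lib.MP_3e612f_nt.ZE
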