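import Pool.Agent.Lib.MP_3e612f_nt.ZE.F.PF
import Pool.Agent.Lib.MP_3e612f_nt.ZE.D.Weak

/-! Corollary F: words and the algebra of limits of dual functions. -/

set_option autoImplicit false

namespace Pool.Agent.Lib.MP_3e612f_nt.ZE

open Finset MeasureTheory Filter Topology

section
variable {X : Type} [MeasurableSpace X] {m : Measure X} [IsProbabilityMeasure m] {τ : ℤ → X → X}

private theorem cor_integrable {f : X → ℝ} (hf : Measurable f) {C : ℝ} (hC : ∀ x, |f x| ≤ C) :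
    Integrable f m :=
  Integrable.of_bound hf.aestronglyMeasurable C (Eventually.of_forall fun x => by
    rw [Real.norm_eq_abs]
    exact hC x)

omit [IsProbabilityMeasure m] in
/-- Change of variables. -/
private theorem cor_shift (hτ : IsAct m τ) (n : ℤ) {u v : X → ℝ} (hu : Measurable u)
    (hv : Measurable v) :
    ∫ x, u x * v (τ n x) ∂m = ∫ x, v x * u (τ (-n) x) ∂m := by
  have h1 : ∀ x, u x * v (τ n x) = (fun y => v y * u (τ (-n) y)) (τ n x) := by
    intro x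
    have h2 : τ (-n) (τ n x) = x := by
      rw [← hτ.add, neg_add_cancel, hτ.zero]
    simp only
    rw [h2, mul_comm]
  have hm : Measurable fun y => v y * u (τ (-n) y) := hv.mul (hu.comp (hτ.mp (-n)).measurable)
  calc ∫ x, u x * v (τ n x) ∂m = ∫ x, (fun y => v y * u (τ (-n) y)) (τ n x) ∂m :=
        integral_congr_ae (Eventually.of_forall h1)
    _ = ∫ y, v y * u (τ (-n) y) ∂(Measure.map (τ n) m) :=
        (integral_map (hτ.mp n).measurable.aemeasurable hm.aestronglyMeasurable).symm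
    _ = ∫ y, v y * u (τ (-n) y) ∂m := by rw [(hτ.mp n).map_eq]

/-- One replacement. -/
private theorem cor_step (hτ : IsAct m τ) (J mm : ℕ) (B : ℝ) (w : ℕ → X → ℝ)
    (hw : ∀ j, Measurable (w j)) (hwb : ∀ j, ∃ C, ∀ x, |w j x| ≤ C) (d : ℕ → X → ℝ)
    (hd : ∀ H, Measurable (d H) ∧ ∀ x, |d H x| ≤ 1) (D : X → ℝ) (hD : Measurable D)
    (hDb : ∀ x, |D x| ≤ 1)
    (hlim : ∀ u : X → ℝ, Integrable u m →
      Tendsto (fun H => ∫ x, d H x * u x ∂m) (hyperfilter ℕ) (𝓝 (∫ x, D x * u x ∂m)))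
    (H₀ : ℕ)
    (hb : ∀ H ≥ H₀, ∀ᵐ x ∂m, ∑ j ∈ range J, w j x * d H (τ ((mm : ℤ) * (j : ℤ)) x) ≤ B) :
    ∀ᵐ x ∂m, ∑ j ∈ range J, w j x * D (τ ((mm : ℤ) * (j : ℤ)) x) ≤ B := by
  have hint : ∀ v : X → ℝ, Measurable v → (∀ x, |v x| ≤ 1) → ∀ j,
      Integrable (fun x => w j x * v (τ ((mm : ℤ) * (j : ℤ)) x)) m := by
    intro v hv hvb j
    obtain ⟨C, hC⟩ := hwb j
    refine cor_integrable (C := C) ((hw j).mul (hv.comp (hτ.mp _).measurable)) fun x => ?_
    rw [abs_mul]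
    calc |w j x| * |v (τ ((mm : ℤ) * (j : ℤ)) x)| ≤ |w j x| * 1 :=
          mul_le_mul_of_nonneg_left (hvb _) (abs_nonneg _)
      _ ≤ C := by rw [mul_one]; exact hC x
  have hsum : ∀ v : X → ℝ, Measurable v → (∀ x, |v x| ≤ 1) →
      Integrable (fun x => ∑ j ∈ range J, w j x * v (τ ((mm : ℤ) * (j : ℤ)) x)) m :=
    fun v hv hvb => integrable_finsetSum _ fun j _ => hint v hv hvb j
  refine ae_le_of_forall_setIntegral_le (hsum D hD hDb) (integrable_const B) fun s hs _ => ?_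
  -- the integrals over `s`
  have hset : ∀ v : X → ℝ, Measurable v → (∀ x, |v x| ≤ 1) →
      ∫ x in s, (∑ j ∈ range J, w j x * v (τ ((mm : ℤ) * (j : ℤ)) x)) ∂m =
        ∑ j ∈ range J, ∫ x, v x * (s.indicator (w j)) (τ (-((mm : ℤ) * (j : ℤ))) x) ∂m := by
    intro v hv hvb
    rw [integral_finsetSum _ fun j _ => (hint v hv hvb j).integrableOn]
    refine Finset.sum_congr rfl fun j _ => ?_
    rw [← cor_shift hτ _ ((hw j).indicator hs) hv, ← integral_indicator hs]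
    refine integral_congr_ae (Eventually.of_forall fun x => ?_)
    by_cases hx : x ∈ s
    · simp only [Set.indicator_of_mem hx]
    · simp only [Set.indicator_of_notMem hx, zero_mul]
  have htend : Tendsto
      (fun H => ∫ x in s, (∑ j ∈ range J, w j x * d H (τ ((mm : ℤ) * (j : ℤ)) x)) ∂m)
      (hyperfilter ℕ)
      (𝓝 (∫ x in s, (∑ j ∈ range J, w j x * D (τ ((mm : ℤ) * (j : ℤ)) x)) ∂m)) := by
    rw [hset D hD hDb]
    have h1 : (fun H => ∫ x in s, (∑ j ∈ range J, w j x * d H (τ ((mm : ℤ) * (j : ℤ)) x)) ∂m) =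
        fun H => ∑ j ∈ range J,
          ∫ x, d H x * (s.indicator (w j)) (τ (-((mm : ℤ) * (j : ℤ))) x) ∂m :=
      funext fun H => hset (d H) (hd H).1 (hd H).2
    rw [h1]
    refine tendsto_finsetSum _ fun j _ => hlim _ ?_
    obtain ⟨C, hC⟩ := hwb j
    refine cor_integrable (C := C)
      (((hw j).indicator hs).comp (hτ.mp (-((mm : ℤ) * (j : ℤ)))).measurable) fun x => ?_
    by_cases hx : τ (-((mm : ℤ) * (j : ℤ))) x ∈ s
    · simp only [Set.indicator_of_mem hx]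
      exact hC _
    · simp only [Set.indicator_of_notMem hx, abs_zero]
      exact (abs_nonneg _).trans (hC x)
  refine le_of_tendsto htend ?_
  have hev : ∀ᶠ H in (hyperfilter ℕ : Filter ℕ), H₀ ≤ H :=
    Nat.hyperfilter_le_atTop (eventually_ge_atTop H₀)
  filter_upwards [hev] with H hH
  exact setIntegral_mono_ae (hsum (d H) (hd H).1 (hd H).2).integrableOn
    (integrable_const B).integrableOn (hb H hH)

/-- Real coefficients `c_j`: if `∑_j c_j ∏_l f_l(τ_{mm j} x) ≤ B` for all `x` and all `f_l ∈ Dual τ (N_l) k`, `N_l ≥ H₀`, then the same holds for limits `D_l`, almost everywhere. Replace one `f_l` after the other (induction over the number of replaced functions; formulate with a set `S ⊆ Fin R` of replaced indices):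
for integrable `u ≥ 0`, `∫ u ∑_j c_j (∏_{l ≠ l₀} g_l(τ_{mm j} x)) D_{l₀}(τ_{mm j} x) = lim ∫ (the same with d_{l₀,H})` because `∫ u (∏ ..) d(τ_{mm j} x) = ∫ (u ∏ ..)∘τ_{-mm j} d`; so `∫ u (B - ..) ≥ 0` for all bounded `u ≥ 0`. -/
theorem lim_bound (hτ : IsAct m τ) (k R J mm H₀ : ℕ) (c : ℕ → ℝ) (B : ℝ)
    (h : ∀ N : Fin R → ℕ, (∀ l, H₀ ≤ N l) → ∀ d : Fin R → X → ℝ, (∀ l, d l ∈ Dual τ (N l) k) → ∀ x : X,
      ∑ j ∈ range J, c j * ∏ l, d l (τ ((mm : ℤ) * (j : ℤ)) x) ≤ B)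
    (D : Fin R → X → ℝ) (hD : ∀ l, IsLim m τ k (D l)) :
    ∀ᵐ x ∂m, ∑ j ∈ range J, c j * ∏ l, D l (τ ((mm : ℤ) * (j : ℤ)) x) ≤ B := by
  classical
  have key : ∀ (S : Finset (Fin R)) (g : Fin R → X → ℝ), (∀ l ∈ S, IsLim m τ k (g l)) →
      (∀ l ∉ S, ∃ N, H₀ ≤ N ∧ g l ∈ Dual τ N k) →
      ∀ᵐ x ∂m, ∑ j ∈ range J, c j * ∏ l, g l (τ ((mm : ℤ) * (j : ℤ)) x) ≤ B := by
    intro S
    induction S using Finset.induction_on with
    | empty =>
      intro g _ hg
      choose N hN hN' using fun l => hg l (Finset.notMem_empty l)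
      exact Eventually.of_forall fun x => h N hN g hN' x
    | insert l₀ S hl₀ ih =>
      intro g hg1 hg2
      obtain ⟨hm, hbd, d, hd, hlim⟩ := hg1 l₀ (Finset.mem_insert_self _ _)
      have hgm : ∀ l, Measurable (g l) ∧ ∀ x, |g l x| ≤ 1 := by
        intro l
        by_cases hl : l ∈ insert l₀ S
        · exact ⟨(hg1 l hl).1, (hg1 l hl).2.1⟩
        · obtain ⟨N, -, hN⟩ := hg2 l hl
          exact dual_meas hτ N k _ hN
      -- the other factors
      have hprod : ∀ (v : X → ℝ) (x : X), ∑ j ∈ range J,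
          c j * ∏ l, (Function.update g l₀ v) l (τ ((mm : ℤ) * (j : ℤ)) x) =
          ∑ j ∈ range J, (c j * ∏ l ∈ Finset.univ.erase l₀, g l (τ ((mm : ℤ) * (j : ℤ)) x)) *
            v (τ ((mm : ℤ) * (j : ℤ)) x) := by
        intro v x
        refine Finset.sum_congr rfl fun j _ => ?_
        rw [← Finset.mul_prod_erase Finset.univ _ (Finset.mem_univ l₀), Function.update_self]
        rw [Finset.prod_congr rfl (g := fun l => g l (τ ((mm : ℤ) * (j : ℤ)) x)) fun l hl => by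
          rw [Function.update_of_ne (Finset.ne_of_mem_erase hl)]]
        ring
      have hfin := cor_step hτ J mm B
        (fun j x => c j * ∏ l ∈ Finset.univ.erase l₀, g l (τ ((mm : ℤ) * (j : ℤ)) x))
        (fun j => by
          refine Measurable.const_mul ?_ _
          exact Finset.measurable_prod _ fun l _ => (hgm l).1.comp (hτ.mp _).measurable)
        (fun j => by
          refine ⟨|c j|, fun x => ?_⟩
          rw [abs_mul, Finset.abs_prod]
          refine mul_le_of_le_one_right (abs_nonneg _) ?_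
          exact Finset.prod_le_one (fun l _ => abs_nonneg _) fun l _ => (hgm l).2 _)
        d (fun H => dual_meas hτ (H + 1) k _ (hd H)) (g l₀) hm hbd hlim H₀
        (fun H hH => by
          have h1 := ih (Function.update g l₀ (d H)) (fun l hl => by
              have hne : l ≠ l₀ := fun h => hl₀ (h ▸ hl)
              rw [Function.update_of_ne hne]
              exact hg1 l (Finset.mem_insert_of_mem hl)) (fun l hl => by
              by_cases hne : l = l₀
              · subst hne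
                rw [Function.update_self]
                exact ⟨H + 1, by omega, hd H⟩
              · rw [Function.update_of_ne hne]
                exact hg2 l fun h => (Finset.mem_insert.1 h).elim hne hl)
          filter_upwards [h1] with x hx
          rw [hprod] at hx
          exact hx)
      filter_upwards [hfin] with x hx
      rw [← hprod, Function.update_eq_self] at hx
      exact hx
  exact key Finset.univ D (fun l _ => hD l) fun l hl => absurd (Finset.mem_univ l) hl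

private theorem cor_pow_root {T : ℝ} (hT : 0 ≤ T) (k : ℕ) :
    0 ≤ T ^ ((1 : ℝ) / 2 ^ (k + 1)) ∧ (T ^ ((1 : ℝ) / 2 ^ (k + 1))) ^ (2 ^ (k + 1)) = T := by
  refine ⟨Real.rpow_nonneg hT _, ?_⟩
  rw [← Real.rpow_natCast, ← Real.rpow_mul hT]
  have h : (1 : ℝ) / 2 ^ (k + 1) * ((2 ^ (k + 1) : ℕ) : ℝ) = 1 := by
    push_cast
    field_simp
  rw [h, Real.rpow_one]

private theorem cor_le_root {T z : ℝ} (hz : 0 ≤ z) {k : ℕ} (h : z ^ (2 ^ (k + 1)) ≤ T) :
    z ≤ T ^ ((1 : ℝ) / 2 ^ (k + 1)) := by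
  have hT : 0 ≤ T := (pow_nonneg hz _).trans h
  obtain ⟨h1, h2⟩ := cor_pow_root hT k
  rw [← h2] at h
  exact (pow_le_pow_iff_left₀ hz h1 (by positivity)).1 h

/-- A complex number is bounded by its real parts after multiplication by a dense sequence. -/
private theorem cor_dense {z : ℂ} {B : ℝ}
    (h : ∀ i : ℕ, (TopologicalSpace.denseSeq ℂ i * z).re ≤ ‖TopologicalSpace.denseSeq ℂ i‖ * B) :
    ‖z‖ ≤ B := by
  have hcl : IsClosed {ζ : ℂ | (ζ * z).re ≤ ‖ζ‖ * B} :=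
    isClosed_le (Complex.continuous_re.comp (continuous_id.mul continuous_const))
      (continuous_norm.mul continuous_const)
  have hall : ∀ ζ : ℂ, (ζ * z).re ≤ ‖ζ‖ * B := by
    intro ζ
    have h1 : closure (Set.range (TopologicalSpace.denseSeq ℂ)) ⊆
        {ζ : ℂ | (ζ * z).re ≤ ‖ζ‖ * B} :=
      closure_minimal (by rintro _ ⟨i, rfl⟩; exact h i) hcl
    have h2 := TopologicalSpace.denseRange_denseSeq ℂ
    exact h1 (h2 ζ)
  by_cases hz : z = 0
  · have h1 := hall 1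
    rw [hz, mul_zero, Complex.zero_re, norm_one, one_mul] at h1
    rw [hz, norm_zero]
    exact h1
  · have h1 := hall ((starRingEnd ℂ) z)
    rw [mul_comm, Complex.mul_conj, Complex.ofReal_re, Complex.normSq_eq_norm_sq,
      RCLike.norm_conj, pow_two] at h1
    exact le_of_mul_le_mul_left h1 (norm_pos_iff.2 hz)

/-- A monomial. `‖z‖ ≤ B` iff `Re (ζ z) ≤ B` for all `ζ` of a countable dense subset of the unit circle; `lim_bound` with `c_j = Re(ζ w_j)/J`; `B = (psi average + C H/J + η)^{1/2^(k+1)}`, all `η > 0` (countably many). -/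
theorem mono_bound (hτ : IsAct m τ) (k : ℕ) : ∃ C : ℝ, 0 ≤ C ∧ ∀ (R : ℕ) (D : Fin R → X → ℝ), (∀ l, IsLim m τ k (D l)) →
    ∀ (H J mm : ℕ), 1 ≤ H → 1 ≤ J → ∀ w : ℕ → ℂ, (∀ n, ‖w n‖ ≤ 1) →
      ∀ᵐ x ∂m, ‖(∑ j ∈ range J, w j * ((∏ l, D l (τ ((mm : ℤ) * (j : ℤ)) x) : ℝ) : ℂ)) / (J : ℂ)‖ ^ (2 ^ (k + 1)) ≤
        (∑ j ∈ range J, psi H k w j) / (J : ℝ) + C * H / J := by
  obtain ⟨C, hC, hPF⟩ := PF_all hτ k
  refine ⟨C, hC, fun R D hD H J mm hH hJ w hw => ?_⟩
  obtain ⟨T, hT⟩ : ∃ T : ℝ, T = (∑ j ∈ range J, psi H k w j) / (J : ℝ) + C * H / J := ⟨_, rfl⟩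
  have hT0 : 0 ≤ T := by
    rw [hT]
    have h1 : 0 ≤ ∑ j ∈ range J, psi H k w j := Finset.sum_nonneg fun j _ => psi_nonneg H k w j
    positivity
  have hre : ∀ (ζ : ℂ) (p : ℕ → ℝ),
      ∑ j ∈ range J, (ζ * w j).re / J * p j =
        (ζ * ((∑ j ∈ range J, w j * (p j : ℂ)) / (J : ℂ))).re := by
    intro ζ p
    rw [Finset.sum_div, Finset.mul_sum, Complex.re_sum]
    refine Finset.sum_congr rfl fun j _ => ?_
    have h1 : ζ * (w j * (p j : ℂ) / (J : ℂ)) = ζ * w j * ((p j / J : ℝ) : ℂ) := by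
      push_cast
      ring
    rw [h1, Complex.re_mul_ofReal]
    ring
  have hae : ∀ (n i : ℕ), ∀ᵐ x ∂m, ∑ j ∈ range J,
      (TopologicalSpace.denseSeq ℂ i * w j).re / J * ∏ l, D l (τ ((mm : ℤ) * (j : ℤ)) x) ≤
        ‖TopologicalSpace.denseSeq ℂ i‖ * (T + 1 / ((n : ℝ) + 1)) ^ ((1 : ℝ) / 2 ^ (k + 1)) := by
    intro n i
    obtain ⟨H₀, hH₀⟩ := hPF R H J mm hH hJ (1 / ((n : ℝ) + 1)) (by positivity)
    refine lim_bound hτ k R J mm H₀ _ _ (fun N hN d hd x => ?_) D hD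
    have h1 := hH₀ N hN d hd (fun _ => x) w hw
    rw [← hT] at h1
    have h2 := cor_le_root (norm_nonneg _) h1
    rw [hre]
    refine (Complex.re_le_norm _).trans ?_
    rw [norm_mul]
    exact mul_le_mul_of_nonneg_left h2 (norm_nonneg _)
  have hae2 := ae_all_iff.2 fun n => ae_all_iff.2 (hae n)
  filter_upwards [hae2] with x hx
  rw [← hT]
  have h1 : ∀ n : ℕ, ‖(∑ j ∈ range J, w j * ((∏ l, D l (τ ((mm : ℤ) * (j : ℤ)) x) : ℝ) : ℂ)) /
      (J : ℂ)‖ ^ (2 ^ (k + 1)) ≤ T + 1 / ((n : ℝ) + 1) := by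
    intro n
    have hn : 0 ≤ T + 1 / ((n : ℝ) + 1) := by positivity
    obtain ⟨h2, h3⟩ := cor_pow_root hn k
    rw [← h3]
    refine pow_le_pow_left₀ (norm_nonneg _) (cor_dense fun i => ?_) _
    have h4 := hx n i
    rw [hre] at h4
    exact h4
  have h2 : Tendsto (fun n : ℕ => T + 1 / ((n : ℝ) + 1)) atTop (𝓝 (T + 0)) :=
    tendsto_const_nhds.add tendsto_one_div_add_atTop_nhds_zero_nat
  rw [add_zero] at h2
  exact ge_of_tendsto' h2 h1

/-- Corollary F: every `A ∈ Alg m τ k` is a linear combination of monomials (`Algebra.adjoin_eq_span`, `Submonoid.closure` = products of lists; or `Algebra.adjoin_induction` for the property below with `A` replaced by finite linear combinations of monomials). -/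
theorem alg_bound (hτ : IsAct m τ) (k : ℕ) (A : X → ℝ) (hA : A ∈ Alg m τ k) : ∃ CA : ℝ, 0 ≤ CA ∧
    ∀ (H : ℕ) (η : ℝ), 1 ≤ H → 0 < η → ∃ J₀ : ℕ, ∀ J ≥ J₀, ∀ (w : ℕ → ℂ) (t : ℝ), (∀ n, ‖w n‖ ≤ 1) → 0 ≤ t →
      (∑ j ∈ range J, psi H k w j) / (J : ℝ) ≤ t → ∀ mm : ℕ,
        ∀ᵐ x ∂m, ‖(∑ j ∈ range J, w j * (A (τ ((mm : ℤ) * (j : ℤ)) x) : ℂ)) / (J : ℂ)‖ ≤ CA * (t + η) ^ ((1 : ℝ) / 2 ^ (k + 1)) := by
  have hA' : A ∈ Submodule.span ℝ
      ((Submonoid.closure {D | IsLim m τ k D} : Submonoid (X → ℝ)) : Set (X → ℝ)) := by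
    rw [← Algebra.adjoin_eq_span]
    exact hA
  clear hA
  induction hA' using Submodule.span_induction with
  | mem A hA =>
    obtain ⟨l, hl, rfl⟩ := Submonoid.exists_list_of_mem_closure hA
    obtain ⟨C, hC, hmono⟩ := mono_bound hτ k
    refine ⟨1, zero_le_one, fun H η hH hη => ?_⟩
    obtain ⟨J₀, hJ₀⟩ := exists_nat_gt (C * H / η)
    refine ⟨max J₀ 1, fun J hJ w t hw ht hψ mm => ?_⟩
    have hJ1 : 1 ≤ J := (le_max_right _ _).trans hJ
    have hJR : (0 : ℝ) < J := by exact_mod_cast hJ1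
    have h1 : C * H / J ≤ η := by
      rw [div_le_iff₀ hJR]
      have h2 : C * H / η < J := hJ₀.trans_le (by exact_mod_cast (le_max_left _ _).trans hJ)
      rw [div_lt_iff₀ hη] at h2
      linarith [h2]
    have h2 := hmono l.length (fun i => l.get i) (fun i => hl _ (List.get_mem l i)) H J mm hH hJ1 w hw
    have h3 : ∀ y : X, l.prod y = ∏ i : Fin l.length, l.get i y := by
      intro y
      have h4 : l.prod = ∏ i : Fin l.length, l.get i := by
        rw [← List.prod_ofFn, List.ofFn_get]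
      rw [h4, Finset.prod_apply]
    filter_upwards [h2] with x hx
    simp only [h3]
    rw [one_mul]
    refine cor_le_root (norm_nonneg _) (hx.trans ?_)
    linarith
  | zero =>
    refine ⟨0, le_rfl, fun H η hH hη => ⟨0, fun J hJ w t hw ht hψ mm => ?_⟩⟩
    refine Eventually.of_forall fun x => ?_
    simp
  | add A B hA hB ihA ihB =>
    obtain ⟨CA, hCA, h1⟩ := ihA
    obtain ⟨CB, hCB, h2⟩ := ihB
    refine ⟨CA + CB, add_nonneg hCA hCB, fun H η hH hη => ?_⟩
    obtain ⟨J₁, hJ₁⟩ := h1 H η hH hη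
    obtain ⟨J₂, hJ₂⟩ := h2 H η hH hη
    refine ⟨max J₁ J₂, fun J hJ w t hw ht hψ mm => ?_⟩
    filter_upwards [hJ₁ J ((le_max_left _ _).trans hJ) w t hw ht hψ mm,
      hJ₂ J ((le_max_right _ _).trans hJ) w t hw ht hψ mm] with x hx1 hx2
    have h3 : (∑ j ∈ range J, w j * (((A + B) (τ ((mm : ℤ) * (j : ℤ)) x) : ℝ) : ℂ)) / (J : ℂ) =
        (∑ j ∈ range J, w j * (A (τ ((mm : ℤ) * (j : ℤ)) x) : ℂ)) / (J : ℂ) +
          (∑ j ∈ range J, w j * (B (τ ((mm : ℤ) * (j : ℤ)) x) : ℂ)) / (J : ℂ) := by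
      rw [← add_div, ← Finset.sum_add_distrib]
      congr 1
      refine Finset.sum_congr rfl fun j _ => ?_
      rw [Pi.add_apply]
      push_cast
      ring
    rw [h3, add_mul]
    exact (norm_add_le _ _).trans (add_le_add hx1 hx2)
  | smul a A hA ihA =>
    obtain ⟨CA, hCA, h1⟩ := ihA
    refine ⟨|a| * CA, mul_nonneg (abs_nonneg _) hCA, fun H η hH hη => ?_⟩
    obtain ⟨J₁, hJ₁⟩ := h1 H η hH hη
    refine ⟨J₁, fun J hJ w t hw ht hψ mm => ?_⟩
    filter_upwards [hJ₁ J hJ w t hw ht hψ mm] with x hx1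
    have h3 : (∑ j ∈ range J, w j * (((a • A) (τ ((mm : ℤ) * (j : ℤ)) x) : ℝ) : ℂ)) / (J : ℂ) =
        (a : ℂ) * ((∑ j ∈ range J, w j * (A (τ ((mm : ℤ) * (j : ℤ)) x) : ℂ)) / (J : ℂ)) := by
      rw [← mul_div_assoc, Finset.mul_sum]
      congr 1
      refine Finset.sum_congr rfl fun j _ => ?_
      rw [Pi.smul_apply, smul_eq_mul]
      push_cast
      ring
    rw [h3, norm_mul, Complex.norm_real, Real.norm_eq_abs, mul_assoc]
    exact mul_le_mul_of_nonneg_left hx1 (abs_nonneg _)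

end

end Pool.Agent.Lib.MP_3e612f_nt.ZE
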