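import Pool.Agent.Lib.MP_3e612f_nt.ZE.F.PFZero

/-! Theorem F: words and products of dual functions. -/

set_option autoImplicit false

namespace Pool.Agent.Lib.MP_3e612f_nt.ZE

open Finset MeasureTheory Filter Topology

section
variable {X : Type} [MeasurableSpace X] {m : Measure X} [IsProbabilityMeasure m] {τ : ℤ → X → X}

/-- `k = 0`: `d_l(x) = E_{a,b<N_l} F_l(τ_{b-a} x)`. For all `s, t < H` replace `a` by `a + mm s`, `b` by `b + mm t` in all `d_l` (`avg_shift2`, `prod_sub_le`: error `≤ ∑_l 4 mm H/N_l ≤ η'`), average over `s, t < H`, then shift `j` to `j + s` (`avg_shift`, error `2H/J`):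
`LHS = E_{(a_l,b_l)_l} E_t (1/J) ∑_j ∏_l F_l(τ_{mm(j+t)+b_l-a_l} x_l) E_s w(j+s) + err`; the product does not depend on `s`: Cauchy-Schwarz: `|LHS|² ≤ (1/J) ∑_j |E_s w(j+s)|² + 3 err` (if `err > 1` there is nothing to prove). Here and below a product over `l` of averages over `(a_l, b_l)` is an average over the product (`Finset.prod_univ_sum`). -/
theorem PF_zero (hτ : IsAct m τ) : ∃ C : ℝ, 0 ≤ C ∧ PF τ 0 C :=
  PF_zero' hτ

private theorem pf_step (T M : ℂ) (v : ℝ) (n : ℕ) (hn : 1 ≤ n) (hT : ‖T‖ ≤ 1) (h : ‖T - M‖ ≤ v) :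
    ‖T‖ ^ n ≤ ‖M‖ ^ n + n * 2 ^ n * v := by
  have hv0 : 0 ≤ v := (norm_nonneg _).trans h
  have hn1 : (1 : ℝ) ≤ n * 2 ^ n := by
    have h1 : (1 : ℝ) ≤ n := by exact_mod_cast hn
    have h2 : (1 : ℝ) ≤ 2 ^ n := one_le_pow₀ (by norm_num)
    nlinarith
  have hT1 : ‖T‖ ^ n ≤ 1 := pow_le_one₀ (norm_nonneg _) hT
  have hM0 : 0 ≤ ‖M‖ ^ n := pow_nonneg (norm_nonneg _) n
  rcases le_or_gt v 1 with hv | hv
  · rcases le_or_gt ‖M‖ 1 with hM | hM
    · have h1 : ‖T‖ ≤ ‖M‖ + v := by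
        have h2 : ‖T‖ ≤ ‖M‖ + ‖T - M‖ := by
          have := norm_add_le M (T - M)
          rwa [add_sub_cancel] at this
        linarith
      exact (pow_le_pow_left₀ (norm_nonneg _) h1 n).trans
        (add_pow_le n _ _ (norm_nonneg _) hM hv0 hv)
    · have h1 : (1 : ℝ) ≤ ‖M‖ ^ n := one_le_pow₀ hM.le
      have h2 : 0 ≤ (n : ℝ) * 2 ^ n * v := by positivity
      linarith
  · have h2 : 1 ≤ (n : ℝ) * 2 ^ n * v := by nlinarith
    linarith

private theorem pf_jensen {ι : Type} (K : Finset ι) (hK : K.Nonempty) (B : ι → ℝ)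
    (hB : ∀ i ∈ K, 0 ≤ B i) (n : ℕ) :
    ((∑ i ∈ K, B i) / (K.card : ℝ)) ^ n ≤ (∑ i ∈ K, B i ^ n) / (K.card : ℝ) := by
  have hc : (0 : ℝ) < K.card := Nat.cast_pos.2 hK.card_pos
  have h := Real.pow_arith_mean_le_arith_mean_pow K (fun _ => 1 / (K.card : ℝ)) B
    (fun i _ => by positivity) (by
      rw [Finset.sum_const, nsmul_eq_mul]
      field_simp) hB n
  rw [← Finset.mul_sum, ← Finset.mul_sum] at h
  calc ((∑ i ∈ K, B i) / (K.card : ℝ)) ^ n = (1 / (K.card : ℝ) * ∑ i ∈ K, B i) ^ n := by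
        rw [one_div, inv_mul_eq_div]
    _ ≤ 1 / (K.card : ℝ) * ∑ i ∈ K, B i ^ n := h
    _ = _ := by rw [one_div, inv_mul_eq_div]

private theorem pf_avg_le {ι : Type} (K : Finset ι) (f : ι → ℂ) (c : ℝ) (hc : 0 ≤ c)
    (hf : ∀ i ∈ K, ‖f i‖ ≤ c) : ‖(∑ i ∈ K, f i) / (K.card : ℂ)‖ ≤ c := by
  rw [norm_div, Complex.norm_natCast]
  rcases Nat.eq_zero_or_pos K.card with h | h
  · rw [h, Nat.cast_zero, div_zero]
    exact hc
  · rw [div_le_iff₀ (Nat.cast_pos.2 h)]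
    calc ‖∑ i ∈ K, f i‖ ≤ ∑ i ∈ K, ‖f i‖ := norm_sum_le _ _
      _ ≤ ∑ i ∈ K, c := Finset.sum_le_sum hf
      _ = c * K.card := by rw [Finset.sum_const, nsmul_eq_mul, mul_comm]

private theorem pf_prod_le {R : ℕ} (u : Fin R → ℝ) (hu : ∀ l, |u l| ≤ 1) : |∏ l, u l| ≤ 1 := by
  rw [Finset.abs_prod]
  exact Finset.prod_le_one (fun l _ => abs_nonneg _) fun l _ => hu l

/-- the average with shifted indices -/
private noncomputable def pfd (τ : ℤ → X → X) (F : X → ℝ) (e : ℕ → ℕ → X → ℝ) (N s t : ℕ) (y : X) : ℝ :=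
  (∑ a ∈ range N, ∑ b ∈ range N, F (τ (((b + t : ℕ) : ℤ) - ((a + s : ℕ) : ℤ)) y) *
    e (a + s) (b + t) (τ (-((a + s : ℕ) : ℤ)) y)) / (N : ℝ) ^ 2

omit [MeasurableSpace X] in
private theorem pfd_sub {F : X → ℝ} {e : ℕ → ℕ → X → ℝ} {N : ℕ} (hN : 1 ≤ N) (hF : ∀ x, |F x| ≤ 1)
    (he : ∀ a b x, |e a b x| ≤ 1) (s t : ℕ) (y : X) :
    |(∑ a ∈ range N, ∑ b ∈ range N, F (τ ((b : ℤ) - (a : ℤ)) y) * e a b (τ (-(a : ℤ)) y)) / (N : ℝ) ^ 2 -
      pfd τ F e N s t y| ≤ 2 * s / N + 2 * t / N := by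
  rw [abs_sub_comm]
  exact avg_shift2 N s t hN (fun a b => F (τ ((b : ℤ) - (a : ℤ)) y) * e a b (τ (-(a : ℤ)) y))
    fun a b => by
      rw [abs_mul]
      exact mul_le_one₀ (hF _) (abs_nonneg _) (he _ _ _)

omit [MeasurableSpace X] in
private theorem pfd_le {F : X → ℝ} {e : ℕ → ℕ → X → ℝ} {N : ℕ} (hN : 1 ≤ N) (hF : ∀ x, |F x| ≤ 1)
    (he : ∀ a b x, |e a b x| ≤ 1) (s t : ℕ) (y : X) : |pfd τ F e N s t y| ≤ 1 := by
  have hN0 : (0 : ℝ) < N := by exact_mod_cast hN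
  unfold pfd
  rw [abs_div, abs_of_pos (by positivity : (0 : ℝ) < (N : ℝ) ^ 2), div_le_one (by positivity)]
  calc |∑ a ∈ range N, ∑ b ∈ range N, F (τ (((b + t : ℕ) : ℤ) - ((a + s : ℕ) : ℤ)) y) *
        e (a + s) (b + t) (τ (-((a + s : ℕ) : ℤ)) y)|
      ≤ ∑ a ∈ range N, ∑ b ∈ range N, (1 : ℝ) := by
        refine (Finset.abs_sum_le_sum_abs _ _).trans (Finset.sum_le_sum fun a _ => ?_)
        refine (Finset.abs_sum_le_sum_abs _ _).trans (Finset.sum_le_sum fun b _ => ?_)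
        rw [abs_mul]
        exact mul_le_one₀ (hF _) (abs_nonneg _) (he _ _ _)
    _ = (N : ℝ) ^ 2 := by
        simp only [Finset.sum_const, Finset.card_range, nsmul_eq_mul, mul_one]
        ring

private noncomputable def pfP {R : ℕ} (N : Fin R → ℕ) : Finset (Fin R → ℕ × ℕ) :=
  Fintype.piFinset fun l => range (N l) ×ˢ range (N l)

private noncomputable def pfF {R : ℕ} (τ : ℤ → X → X) (F : Fin R → X → ℝ) (mm j t : ℕ) (x : Fin R → X)
    (p : Fin R → ℕ × ℕ) : ℝ :=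
  ∏ l, F l (τ ((mm : ℤ) * ((j + t : ℕ) : ℤ) + ((p l).2 : ℤ) - ((p l).1 : ℤ)) (x l))

private noncomputable def pfE {R : ℕ} (τ : ℤ → X → X) (e : Fin R → ℕ → ℕ → X → ℝ) (mm j s t : ℕ)
    (x : Fin R → X) (p : Fin R → ℕ × ℕ) : ℝ :=
  ∏ l, e l ((p l).1 + mm * s) ((p l).2 + mm * t) (τ ((mm : ℤ) * (j : ℤ)) (τ (-((p l).1 : ℤ)) (x l)))

private theorem pf_card {R : ℕ} (N : Fin R → ℕ) :
    ∏ l, (N l : ℝ) ^ 2 = ((pfP N).card : ℝ) := by
  unfold pfP
  rw [Fintype.card_piFinset]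
  push_cast
  refine Finset.prod_congr rfl fun l _ => ?_
  rw [Finset.card_product, Finset.card_range]
  push_cast
  ring

omit [IsProbabilityMeasure m] in
private theorem pf_prod {R : ℕ} (hτ : IsAct m τ) (F : Fin R → X → ℝ) (e : Fin R → ℕ → ℕ → X → ℝ)
    (N : Fin R → ℕ) (mm j s t : ℕ) (x : Fin R → X) :
    ∏ l, pfd τ (F l) (e l) (N l) (mm * s) (mm * t) (τ ((mm : ℤ) * ((j + s : ℕ) : ℤ)) (x l)) =
      (∑ p ∈ pfP N, pfF τ F mm j t x p * pfE τ e mm j s t x p) / ((pfP N).card : ℝ) := by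
  unfold pfd
  rw [Finset.prod_div_distrib, pf_card]
  congr 1
  have h1 : ∀ l : Fin R, ∑ a ∈ range (N l), ∑ b ∈ range (N l),
      F l (τ (((b + mm * t : ℕ) : ℤ) - ((a + mm * s : ℕ) : ℤ)) (τ ((mm : ℤ) * ((j + s : ℕ) : ℤ)) (x l))) *
        e l (a + mm * s) (b + mm * t) (τ (-((a + mm * s : ℕ) : ℤ)) (τ ((mm : ℤ) * ((j + s : ℕ) : ℤ)) (x l))) =
      ∑ q ∈ range (N l) ×ˢ range (N l),
        F l (τ ((mm : ℤ) * ((j + t : ℕ) : ℤ) + (q.2 : ℤ) - (q.1 : ℤ)) (x l)) *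
          e l (q.1 + mm * s) (q.2 + mm * t) (τ ((mm : ℤ) * (j : ℤ)) (τ (-(q.1 : ℤ)) (x l))) := by
    intro l
    rw [Finset.sum_product]
    refine Finset.sum_congr rfl fun a _ => Finset.sum_congr rfl fun b _ => ?_
    have hA : ∀ (u v : ℤ) (y : X), τ u (τ v y) = τ (u + v) y := fun u v y => (hτ.add u v y).symm
    rw [hA (((b + mm * t : ℕ) : ℤ) - ((a + mm * s : ℕ) : ℤ)) _ (x l),
      hA (-((a + mm * s : ℕ) : ℤ)) _ (x l), hA ((mm : ℤ) * (j : ℤ)) _ (x l)]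
    have e1 : ((b + mm * t : ℕ) : ℤ) - ((a + mm * s : ℕ) : ℤ) + (mm : ℤ) * ((j + s : ℕ) : ℤ) =
        (mm : ℤ) * ((j + t : ℕ) : ℤ) + (b : ℤ) - (a : ℤ) := by
      push_cast
      ring
    have e2 : -((a + mm * s : ℕ) : ℤ) + (mm : ℤ) * ((j + s : ℕ) : ℤ) =
        (mm : ℤ) * (j : ℤ) + -(a : ℤ) := by
      push_cast
      ring
    rw [e1, e2]
  rw [Finset.prod_congr rfl fun l _ => h1 l, Finset.prod_univ_sum]
  refine Finset.sum_congr rfl fun p _ => ?_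
  rw [Finset.prod_mul_distrib]
  rfl

private theorem pf_comm {α β γ δ : Type} (A : Finset α) (B : Finset β) (D : Finset γ)
    (E : Finset δ) (G : α → β → γ → δ → ℂ) :
    ∑ s ∈ A, ∑ t ∈ B, ∑ j ∈ D, ∑ p ∈ E, G s t j p = ∑ j ∈ D, ∑ t ∈ B, ∑ p ∈ E, ∑ s ∈ A, G s t j p := by
  calc ∑ s ∈ A, ∑ t ∈ B, ∑ j ∈ D, ∑ p ∈ E, G s t j p
      = ∑ s ∈ A, ∑ j ∈ D, ∑ t ∈ B, ∑ p ∈ E, G s t j p :=
        Finset.sum_congr rfl fun s _ => Finset.sum_comm
    _ = ∑ j ∈ D, ∑ s ∈ A, ∑ t ∈ B, ∑ p ∈ E, G s t j p := Finset.sum_comm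
    _ = ∑ j ∈ D, ∑ t ∈ B, ∑ s ∈ A, ∑ p ∈ E, G s t j p :=
        Finset.sum_congr rfl fun j _ => Finset.sum_comm
    _ = ∑ j ∈ D, ∑ t ∈ B, ∑ p ∈ E, ∑ s ∈ A, G s t j p :=
        Finset.sum_congr rfl fun j _ => Finset.sum_congr rfl fun t _ => Finset.sum_comm

omit [MeasurableSpace X] in
private theorem pf_app {R : ℕ} (E1 E2 : Fin R → X → ℝ) (y : Fin R → X) (σ : X → X) :
    ∏ l : Fin (R + R), (Fin.append E1 E2 : Fin (R + R) → X → ℝ) l
      (σ ((Fin.append y y : Fin (R + R) → X) l)) = (∏ l, E1 l (σ (y l))) * ∏ l, E2 l (σ (y l)) := by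
  rw [Fin.prod_univ_add]
  congr 1
  · refine Finset.prod_congr rfl fun l _ => ?_
    rw [Fin.append_left, Fin.append_left]
  · refine Finset.prod_congr rfl fun l _ => ?_
    rw [Fin.append_right, Fin.append_right]

private theorem pf_hyp {R J mm H₁ k : ℕ} {N : Fin R → ℕ} (hNH : ∀ l, H₁ ≤ N l)
    {bd : (ℕ → ℂ) → ℝ}
    (h : ∀ N : Fin (R + R) → ℕ, (∀ l, H₁ ≤ N l) →
      ∀ d : Fin (R + R) → X → ℝ, (∀ l, d l ∈ Dual τ (N l) k) → ∀ (x : Fin (R + R) → X) (w : ℕ → ℂ),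
      (∀ n, ‖w n‖ ≤ 1) →
      ‖(∑ j ∈ range J, w j * ((∏ l, d l (τ ((mm : ℤ) * (j : ℤ)) (x l)) : ℝ) : ℂ)) / (J : ℂ)‖ ^ (2 ^ (k + 1)) ≤
        bd w)
    (E1 E2 : Fin R → X → ℝ) (h1 : ∀ l, E1 l ∈ Dual τ (N l) k) (h2 : ∀ l, E2 l ∈ Dual τ (N l) k)
    (y : Fin R → X) (w : ℕ → ℂ) (hw : ∀ n, ‖w n‖ ≤ 1) :
    ‖(∑ j ∈ range J, w j * (((∏ l, E1 l (τ ((mm : ℤ) * (j : ℤ)) (y l))) *
      ∏ l, E2 l (τ ((mm : ℤ) * (j : ℤ)) (y l)) : ℝ) : ℂ)) / (J : ℂ)‖ ^ (2 ^ (k + 1)) ≤ bd w := by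
  have h3 := h (Fin.append N N) (fun l => by
        refine Fin.addCases (fun l => ?_) (fun l => ?_) l
        · rw [Fin.append_left]; exact hNH l
        · rw [Fin.append_right]; exact hNH l)
      (Fin.append E1 E2) (fun l => by
        refine Fin.addCases (fun l => ?_) (fun l => ?_) l
        · rw [Fin.append_left, Fin.append_left]; exact h1 l
        · rw [Fin.append_right, Fin.append_right]; exact h2 l)
      (Fin.append y y) w hw
  have h4 : ∀ j : ℕ, ∏ l : Fin (R + R), (Fin.append E1 E2 : Fin (R + R) → X → ℝ) l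
      (τ ((mm : ℤ) * (j : ℤ)) ((Fin.append y y : Fin (R + R) → X) l)) =
        (∏ l, E1 l (τ ((mm : ℤ) * (j : ℤ)) (y l))) * ∏ l, E2 l (τ ((mm : ℤ) * (j : ℤ)) (y l)) :=
    fun j => pf_app E1 E2 y _
  simp only [h4] at h3
  exact h3

/-- Step: `d_l(x) = E_{a,b<N_l} F_l(τ_{b-a} x) e^l_{a,b}(τ_{-a} x)`. As in `PF_zero`: `LHS = E_{(a_l,b_l)_l} E_t (1/J) ∑_j ∏_l F_l(τ_{mm(j+t)+b_l-a_l} x_l) E_s w(j+s) ∏_l e^l_{a_l + mm s, b_l + mm t}(τ_{mm j} τ_{-a_l} x_l) + err`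
(`τ_{mm(j+s)} τ_{-(a_l + mm s)} = τ_{mm j - a_l}`). Cauchy-Schwarz (`cs_avg` over `j` for fixed `(a,b,t)`, or over all of `(a,b,t,j)`): `|LHS|² ≤ E_{(a,b)} E_t E_{s,s'} ‖(1/J) ∑_j w(j+s) conj w(j+s') ∏_l e^l_{..s..} e^l_{..s'..}‖ + 3 err`: `2R` functions of `Dual τ (N_l) k` at the points `τ_{-a_l} x_l`
(`Fin R ⊕ Fin R ≃ Fin (2R)`), the word `n ↦ w(n+s) conj w(n+s')`: hypothesis `PF τ k C` for `2R`. Raise to the power `2^(k+1)`: Jensen (`inner_le_nnorm_mul_nnorm` or convexity of `x^n`), `add_pow_le`, and `psi H (k+1) w j = E_{s,s'} psi H k (..) j`. -/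
theorem PF_succ (hτ : IsAct m τ) (k : ℕ) (C : ℝ) (hC : 0 ≤ C) (h : PF τ k C) : ∃ C' : ℝ, 0 ≤ C' ∧ PF τ (k + 1) C' := by
  classical
  obtain ⟨n, hn⟩ : ∃ n : ℕ, n = 2 ^ (k + 1 + 1) := ⟨_, rfl⟩
  have hn1 : 1 ≤ n := by rw [hn]; exact Nat.one_le_two_pow
  have hnR : (1 : ℝ) ≤ n := by exact_mod_cast hn1
  have hn2 : (0 : ℝ) < n * 2 ^ n := by positivity
  refine ⟨C + n * 2 ^ n * 2, by positivity, ?_⟩
  intro R H J mm hH hJ η hη
  obtain ⟨H₁, hH₁⟩ := h (R + R) H J mm hH hJ (η / 2) (half_pos hη)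
  obtain ⟨η', hη'⟩ : ∃ η' : ℝ, η' = η / (2 * (n * 2 ^ n)) := ⟨_, rfl⟩
  have hη0 : 0 < η' := by rw [hη']; positivity
  have hH0 : (0 : ℝ) < H := by exact_mod_cast hH
  have hJ0 : (0 : ℝ) < J := by exact_mod_cast hJ
  refine ⟨max (max 1 H₁) ⌈4 * (R : ℝ) * mm * H / η'⌉₊, fun N hN d hd x w hw => ?_⟩
  have hN1 : ∀ l, 1 ≤ N l := fun l => ((le_max_left _ _).trans (le_max_left _ _)).trans (hN l)
  have hNH : ∀ l, H₁ ≤ N l := fun l => ((le_max_right _ _).trans (le_max_left _ _)).trans (hN l)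
  have hNe : ∀ l, 4 * (R : ℝ) * mm * H / η' ≤ N l := fun l =>
    (Nat.le_ceil _).trans (by exact_mod_cast (le_max_right _ _).trans (hN l))
  have hN0 : ∀ l, (0 : ℝ) < N l := fun l => by exact_mod_cast hN1 l
  have hdb : ∀ l y, |d l y| ≤ 1 := fun l y => (dual_meas hτ (N l) (k + 1) _ (hd l)).2 y
  have hd' : ∀ l, ∃ (F : X → ℝ) (e : ℕ → ℕ → X → ℝ), Measurable F ∧ (∀ x, |F x| ≤ 1) ∧
      (∀ a b, e a b ∈ Dual τ (N l) k) ∧
      d l = fun x => (∑ a ∈ range (N l), ∑ b ∈ range (N l), F (τ ((b : ℤ) - (a : ℤ)) x) *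
        e a b (τ (-(a : ℤ)) x)) / (N l : ℝ) ^ 2 := hd
  choose F e hFm hF he hde using hd'
  have heb : ∀ l a b y, |e l a b y| ≤ 1 := fun l a b y => (dual_meas hτ (N l) k _ (he l a b)).2 y
  obtain ⟨T, hT⟩ : ∃ T : ℂ, T = (∑ j ∈ range J, w j *
    ((∏ l, d l (τ ((mm : ℤ) * (j : ℤ)) (x l)) : ℝ) : ℂ)) / (J : ℂ) := ⟨_, rfl⟩
  rw [← hT]
  have hcJ : (J : ℂ) = ((range J).card : ℂ) := by rw [Finset.card_range]
  have hT1 : ‖T‖ ≤ 1 := by
    rw [hT, hcJ]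
    refine pf_avg_le _ _ 1 zero_le_one fun j _ => ?_
    rw [norm_mul, Complex.norm_real, Real.norm_eq_abs]
    exact mul_le_one₀ (hw j) (abs_nonneg _) (pf_prod_le _ fun l => hdb l _)
  obtain ⟨Y, hY⟩ : ∃ Y : ℕ → ℕ → ℂ, Y = fun s t => (∑ j ∈ range J, w (j + s) *
    ((∏ l, pfd τ (F l) (e l) (N l) (mm * s) (mm * t) (τ ((mm : ℤ) * ((j + s : ℕ) : ℤ)) (x l)) : ℝ) : ℂ)) /
      (J : ℂ) := ⟨_, rfl⟩
  have hpb : ∀ l s t y, |pfd τ (F l) (e l) (N l) s t y| ≤ 1 := fun l s t y =>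
    pfd_le (hN1 l) (hF l) (heb l) s t y
  have hTY : ∀ s ∈ range H, ∀ t ∈ range H, ‖T - Y s t‖ ≤ η' + 2 * H / J := by
    intro s hs t ht
    rw [Finset.mem_range] at hs ht
    have hsH : (s : ℝ) ≤ H := by exact_mod_cast hs.le
    have htH : (t : ℝ) ≤ H := by exact_mod_cast ht.le
    obtain ⟨φ, hφ⟩ : ∃ φ : ℕ → ℂ, φ = fun j => w j *
      ((∏ l, pfd τ (F l) (e l) (N l) (mm * s) (mm * t) (τ ((mm : ℤ) * (j : ℤ)) (x l)) : ℝ) : ℂ) := ⟨_, rfl⟩
    have hφ1 : ∀ j, ‖φ j‖ ≤ 1 := by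
      intro j
      rw [hφ]
      rw [norm_mul, Complex.norm_real, Real.norm_eq_abs]
      exact mul_le_one₀ (hw j) (abs_nonneg _) (pf_prod_le _ fun l => hpb l _ _ _)
    have h1 := avg_shift J s hJ φ hφ1
    have h2 : ‖T - (∑ j ∈ range J, φ j) / (J : ℂ)‖ ≤ η' := by
      have h3 : T - (∑ j ∈ range J, φ j) / (J : ℂ) = (∑ j ∈ range J, w j *
          ((∏ l, d l (τ ((mm : ℤ) * (j : ℤ)) (x l)) - ∏ l, pfd τ (F l) (e l) (N l) (mm * s) (mm * t)
            (τ ((mm : ℤ) * (j : ℤ)) (x l)) : ℝ) : ℂ)) / ((range J).card : ℂ) := by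
        rw [hT, hφ, ← hcJ, ← sub_div, ← Finset.sum_sub_distrib]
        congr 1
        refine Finset.sum_congr rfl fun j _ => ?_
        push_cast
        ring
      rw [h3]
      refine pf_avg_le _ _ η' hη0.le fun j _ => ?_
      rw [norm_mul, Complex.norm_real, Real.norm_eq_abs]
      have h4 := prod_sub_le (fun l => d l (τ ((mm : ℤ) * (j : ℤ)) (x l)))
        (fun l => pfd τ (F l) (e l) (N l) (mm * s) (mm * t) (τ ((mm : ℤ) * (j : ℤ)) (x l)))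
        (fun l => hdb l _) (fun l => hpb l _ _ _)
      have h5 : ∑ l : Fin R, |d l (τ ((mm : ℤ) * (j : ℤ)) (x l)) -
          pfd τ (F l) (e l) (N l) (mm * s) (mm * t) (τ ((mm : ℤ) * (j : ℤ)) (x l))| ≤ η' := by
        rcases Nat.eq_zero_or_pos R with hR | hR
        · subst hR
          rw [Finset.univ_eq_empty, Finset.sum_empty]
          exact hη0.le
        · have hR0 : (0 : ℝ) < R := by exact_mod_cast hR
          calc ∑ l : Fin R, |d l (τ ((mm : ℤ) * (j : ℤ)) (x l)) -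
                pfd τ (F l) (e l) (N l) (mm * s) (mm * t) (τ ((mm : ℤ) * (j : ℤ)) (x l))|
              ≤ ∑ l : Fin R, η' / R := by
                refine Finset.sum_le_sum fun l _ => ?_
                have h6 := pfd_sub (τ := τ) (hN1 l) (hF l) (heb l) (mm * s) (mm * t)
                  (τ ((mm : ℤ) * (j : ℤ)) (x l))
                rw [hde l]
                refine h6.trans ?_
                have h7 := hNe l
                rw [div_le_iff₀ hη0] at h7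
                rw [← add_div, div_le_div_iff₀ (hN0 l) hR0]
                push_cast
                have h8 : (mm : ℝ) * s ≤ mm * H := mul_le_mul_of_nonneg_left hsH (Nat.cast_nonneg _)
                have h9 : (mm : ℝ) * t ≤ mm * H := mul_le_mul_of_nonneg_left htH (Nat.cast_nonneg _)
                have h10 : (2 * ((mm : ℝ) * s) + 2 * (mm * t)) * R ≤ (4 * (mm * H)) * R := by
                  refine mul_le_mul_of_nonneg_right ?_ hR0.le
                  linarith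
                linarith
            _ = η' := by
                rw [Finset.sum_const, Finset.card_univ, Fintype.card_fin, nsmul_eq_mul]
                field_simp
      calc ‖w j‖ * |∏ l, d l (τ ((mm : ℤ) * (j : ℤ)) (x l)) - ∏ l, pfd τ (F l) (e l) (N l) (mm * s) (mm * t)
            (τ ((mm : ℤ) * (j : ℤ)) (x l))| ≤ 1 * η' :=
            mul_le_mul (hw j) (h4.trans h5) (abs_nonneg _) zero_le_one
        _ = η' := one_mul _
    have h11 : Y s t = (∑ a ∈ range J, φ (a + s)) / (J : ℂ) := by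
      rw [hY, hφ]
    have h12 : T - Y s t = (T - (∑ j ∈ range J, φ j) / (J : ℂ)) -
        ((∑ a ∈ range J, φ (a + s)) / (J : ℂ) - (∑ a ∈ range J, φ a) / (J : ℂ)) := by
      rw [h11]
      ring
    rw [h12]
    refine (norm_sub_le _ _).trans (add_le_add h2 (h1.trans ?_))
    gcongr
  obtain ⟨M, hM⟩ : ∃ M : ℂ, M = (∑ s ∈ range H, ∑ t ∈ range H, Y s t) / ((H : ℂ) ^ 2) := ⟨_, rfl⟩
  have hTM : ‖T - M‖ ≤ η' + 2 * H / J := by
    have hHC : (H : ℂ) ≠ 0 := Nat.cast_ne_zero.2 (by omega)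
    have h1 : T - M = (∑ q ∈ range H ×ˢ range H, (T - Y q.1 q.2)) / ((range H ×ˢ range H).card : ℂ) := by
      rw [Finset.sum_sub_distrib, Finset.sum_const, Finset.card_product, Finset.card_range,
        Finset.sum_product, hM, nsmul_eq_mul]
      push_cast
      field_simp
    rw [h1]
    refine pf_avg_le _ _ _ (by positivity) fun q hq => ?_
    rw [Finset.mem_product] at hq
    exact hTY q.1 hq.1 q.2 hq.2
  have hstep := pf_step T M _ n hn1 hT1 hTM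
  -- Cauchy-Schwarz
  obtain ⟨I, hI⟩ : ∃ I : Finset (ℕ × ℕ × (Fin R → ℕ × ℕ)), I = range J ×ˢ (range H ×ˢ pfP N) := ⟨_, rfl⟩
  obtain ⟨f, hf⟩ : ∃ f : ℕ × ℕ × (Fin R → ℕ × ℕ) → ℂ,
    f = fun i => ((pfF τ F mm i.1 i.2.1 x i.2.2 : ℝ) : ℂ) := ⟨_, rfl⟩
  obtain ⟨g, hg⟩ : ∃ g : ℕ × ℕ × (Fin R → ℕ × ℕ) → ℕ → ℂ,
    g = fun i s => w (i.1 + s) * ((pfE τ e mm i.1 s i.2.1 x i.2.2 : ℝ) : ℂ) := ⟨_, rfl⟩
  have hP0 : (0 : ℝ) < (pfP N).card := by
    rw [← pf_card]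
    exact Finset.prod_pos fun l _ => pow_pos (hN0 l) 2
  have hPC : ((pfP N).card : ℂ) ≠ 0 := by
    intro h0
    have h1 : (pfP N).card = 0 := by exact_mod_cast h0
    rw [h1, Nat.cast_zero] at hP0
    exact lt_irrefl _ hP0
  have hHC : (H : ℂ) ≠ 0 := Nat.cast_ne_zero.2 (by omega)
  have hJC : (J : ℂ) ≠ 0 := Nat.cast_ne_zero.2 (by omega)
  have hIc : (I.card : ℂ) = (J : ℂ) * ((H : ℂ) * ((pfP N).card : ℂ)) := by
    rw [hI, Finset.card_product, Finset.card_product, Finset.card_range, Finset.card_range]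
    push_cast
    ring
  have hf1 : ∀ i ∈ I, ‖f i‖ ≤ 1 := by
    intro i _
    rw [hf]
    rw [Complex.norm_real, Real.norm_eq_abs]
    exact pf_prod_le _ fun l => hF l _
  have hMcs : M = (∑ i ∈ I, f i * ((∑ s ∈ range H, g i s) / (H : ℂ))) / (I.card : ℂ) := by
    have h1 : M = (∑ s ∈ range H, ∑ t ∈ range H, ∑ j ∈ range J, ∑ p ∈ pfP N,
        w (j + s) * (((pfF τ F mm j t x p : ℝ) : ℂ) * ((pfE τ e mm j s t x p : ℝ) : ℂ))) /
          ((J : ℂ) * ((H : ℂ) * ((pfP N).card : ℂ)) * (H : ℂ)) := by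
      rw [hM, hY]
      have h2 : ∀ s t, (∑ j ∈ range J, w (j + s) * ((∏ l, pfd τ (F l) (e l) (N l) (mm * s) (mm * t)
          (τ ((mm : ℤ) * ((j + s : ℕ) : ℤ)) (x l)) : ℝ) : ℂ)) / (J : ℂ) =
          (∑ j ∈ range J, ∑ p ∈ pfP N, w (j + s) * (((pfF τ F mm j t x p : ℝ) : ℂ) *
            ((pfE τ e mm j s t x p : ℝ) : ℂ))) * ((J : ℂ)⁻¹ * ((pfP N).card : ℂ)⁻¹) := by
        intro s t
        rw [div_eq_mul_inv, ← mul_assoc, mul_right_comm, Finset.sum_mul _ _ ((pfP N).card : ℂ)⁻¹]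
        congr 1
        refine Finset.sum_congr rfl fun j _ => ?_
        rw [pf_prod hτ, ← Finset.mul_sum, mul_assoc]
        congr 1
        push_cast
        rw [div_eq_mul_inv]
      simp only [h2]
      simp only [← Finset.sum_mul]
      field_simp
    rw [h1, hIc, pf_comm (range H) (range H) (range J) (pfP N)
      (fun s t j p => w (j + s) * (((pfF τ F mm j t x p : ℝ) : ℂ) * ((pfE τ e mm j s t x p : ℝ) : ℂ))),
      hI, Finset.sum_product]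
    rw [← div_div, div_right_comm]
    congr 1
    rw [Finset.sum_div]
    refine Finset.sum_congr rfl fun j _ => ?_
    rw [Finset.sum_product, Finset.sum_div]
    refine Finset.sum_congr rfl fun t _ => ?_
    rw [Finset.sum_div]
    refine Finset.sum_congr rfl fun p _ => ?_
    rw [hf, hg, ← mul_div_assoc, Finset.mul_sum]
    congr 1
    refine Finset.sum_congr rfl fun s _ => ?_
    ring
  have hcs := cs_avg I H f hf1 g
  rw [← hMcs] at hcs
  obtain ⟨B, hB⟩ : ∃ B : ℕ → ℕ → ℕ → (Fin R → ℕ × ℕ) → ℝ, B = fun s s' t p =>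
    ‖(∑ j ∈ range J, (w (j + s) * (starRingEnd ℂ) (w (j + s'))) *
      ((pfE τ e mm j s t x p * pfE τ e mm j s' t x p : ℝ) : ℂ)) / (J : ℂ)‖ := ⟨_, rfl⟩
  have hB0 : ∀ s s' t p, 0 ≤ B s s' t p := by
    intro s s' t p
    rw [hB]
    exact norm_nonneg _
  have hB1 : ∀ s s', ‖(∑ i ∈ I, g i s * (starRingEnd ℂ) (g i s')) / (I.card : ℂ)‖ ≤
      (∑ t ∈ range H, ∑ p ∈ pfP N, B s s' t p) / ((H : ℝ) * (pfP N).card) := by
    intro s s'
    have h1 : (∑ i ∈ I, g i s * (starRingEnd ℂ) (g i s')) / (I.card : ℂ) =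
        (∑ t ∈ range H, ∑ p ∈ pfP N, (∑ j ∈ range J, (w (j + s) * (starRingEnd ℂ) (w (j + s'))) *
          ((pfE τ e mm j s t x p * pfE τ e mm j s' t x p : ℝ) : ℂ)) / (J : ℂ)) /
            ((H : ℂ) * ((pfP N).card : ℂ)) := by
      rw [hIc, ← div_div]
      congr 1
      rw [hI, Finset.sum_product, Finset.sum_div]
      have h2 : ∀ j ∈ range J, (∑ q ∈ range H ×ˢ pfP N, g (j, q) s * (starRingEnd ℂ) (g (j, q) s')) / (J : ℂ) =
          ∑ t ∈ range H, ∑ p ∈ pfP N, ((w (j + s) * (starRingEnd ℂ) (w (j + s'))) *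
          ((pfE τ e mm j s t x p * pfE τ e mm j s' t x p : ℝ) : ℂ)) / (J : ℂ) := by
        intro j _
        rw [Finset.sum_product, Finset.sum_div]
        refine Finset.sum_congr rfl fun t _ => ?_
        rw [Finset.sum_div]
        refine Finset.sum_congr rfl fun p _ => ?_
        rw [hg]
        congr 1
        simp only [map_mul, Complex.conj_ofReal]
        push_cast
        ring
      rw [Finset.sum_congr rfl h2, Finset.sum_comm]
      refine Finset.sum_congr rfl fun t _ => ?_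
      rw [Finset.sum_comm]
      refine Finset.sum_congr rfl fun p _ => ?_
      rw [Finset.sum_div]
    rw [h1, norm_div]
    have h3 : ‖((H : ℂ) * ((pfP N).card : ℂ))‖ = (H : ℝ) * (pfP N).card := by
      rw [norm_mul, Complex.norm_natCast, Complex.norm_natCast]
    rw [h3]
    refine div_le_div_of_nonneg_right ?_ (by positivity)
    refine (norm_sum_le _ _).trans (Finset.sum_le_sum fun t _ => ?_)
    refine (norm_sum_le _ _).trans (Finset.sum_le_sum fun p _ => ?_)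
    rw [hB]
  have hB2 : ∀ s s' t p, (B s s' t p) ^ (2 ^ (k + 1)) ≤
      (∑ j ∈ range J, psi H k (fun n => w (n + s) * (starRingEnd ℂ) (w (n + s'))) j) / (J : ℝ) +
        C * H / J + η / 2 := by
    intro s s' t p
    have h1 := pf_hyp (bd := fun w => (∑ j ∈ range J, psi H k w j) / (J : ℝ) + C * H / J + η / 2) hNH hH₁
      (fun l => e l ((p l).1 + mm * s) ((p l).2 + mm * t))
      (fun l => e l ((p l).1 + mm * s') ((p l).2 + mm * t)) (fun l => he l _ _) (fun l => he l _ _)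
      (fun l => τ (-((p l).1 : ℤ)) (x l))
      (fun n => w (n + s) * (starRingEnd ℂ) (w (n + s'))) (fun n => by
        rw [norm_mul, RCLike.norm_conj]
        exact mul_le_one₀ (hw _) (norm_nonneg _) (hw _))
    rw [hB]
    exact h1
  obtain ⟨K, hK⟩ : ∃ K : Finset ((ℕ × ℕ) × (ℕ × (Fin R → ℕ × ℕ))),
    K = (range H ×ˢ range H) ×ˢ (range H ×ˢ pfP N) := ⟨_, rfl⟩
  have hKc : (K.card : ℝ) = ((H : ℝ) * (pfP N).card) * (H : ℝ) ^ 2 := by
    rw [hK, Finset.card_product, Finset.card_product, Finset.card_product, Finset.card_range]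
    push_cast
    ring
  have hKne : K.Nonempty := by
    rw [← Finset.card_pos]
    have h1 : (0 : ℝ) < K.card := by rw [hKc]; positivity
    exact_mod_cast h1
  have hM2 : ‖M‖ ^ 2 ≤ (∑ i ∈ K, B i.1.1 i.1.2 i.2.1 i.2.2) / (K.card : ℝ) := by
    refine hcs.trans ?_
    rw [hKc, ← div_div]
    refine div_le_div_of_nonneg_right ?_ (by positivity)
    rw [hK, Finset.sum_product, Finset.sum_product, Finset.sum_div]
    refine Finset.sum_le_sum fun s _ => ?_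
    rw [Finset.sum_div]
    refine Finset.sum_le_sum fun s' _ => ?_
    rw [Finset.sum_product]
    exact hB1 s s'
  have hM3 : ‖M‖ ^ n ≤ (∑ j ∈ range J, psi H (k + 1) w j) / (J : ℝ) + C * H / J + η / 2 := by
    have h1 : ‖M‖ ^ n = (‖M‖ ^ 2) ^ (2 ^ (k + 1)) := by
      rw [hn, ← pow_mul]
      congr 1
      ring
    rw [h1]
    refine (pow_le_pow_left₀ (by positivity) hM2 _).trans ?_
    refine (pf_jensen K hKne _ (fun i _ => hB0 _ _ _ _) _).trans ?_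
    have h2 : (∑ i ∈ K, B i.1.1 i.1.2 i.2.1 i.2.2 ^ (2 ^ (k + 1))) / (K.card : ℝ) ≤
        (∑ i ∈ K, ((∑ j ∈ range J, psi H k (fun n => w (n + i.1.1) * (starRingEnd ℂ) (w (n + i.1.2))) j) /
          (J : ℝ) + C * H / J + η / 2)) / (K.card : ℝ) :=
      div_le_div_of_nonneg_right (Finset.sum_le_sum fun i _ => hB2 _ _ _ _) (Nat.cast_nonneg _)
    refine h2.trans (le_of_eq ?_)
    rw [hK, Finset.sum_product, ← hK]
    simp only [Finset.sum_const, Finset.card_product, Finset.card_range, nsmul_eq_mul]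
    rw [← Finset.mul_sum, Finset.sum_product, hKc]
    simp only [psi, Finset.sum_add_distrib, Finset.sum_const, Finset.card_range, nsmul_eq_mul]
    have h3 : ∑ s ∈ range H, ∑ s' ∈ range H,
        (∑ j ∈ range J, psi H k (fun n => w (n + s) * (starRingEnd ℂ) (w (n + s'))) j) / (J : ℝ) =
        (∑ j ∈ range J, ∑ s ∈ range H, ∑ s' ∈ range H,
          psi H k (fun n => w (n + s) * (starRingEnd ℂ) (w (n + s'))) j) / (J : ℝ) := by
      simp only [← Finset.sum_div]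
      congr 1
      calc ∑ s ∈ range H, ∑ s' ∈ range H, ∑ j ∈ range J,
            psi H k (fun n => w (n + s) * (starRingEnd ℂ) (w (n + s'))) j
          = ∑ s ∈ range H, ∑ j ∈ range J, ∑ s' ∈ range H,
            psi H k (fun n => w (n + s) * (starRingEnd ℂ) (w (n + s'))) j :=
            Finset.sum_congr rfl fun s _ => Finset.sum_comm
        _ = _ := Finset.sum_comm
    rw [h3]
    push_cast
    rw [← Finset.sum_div]
    field_simp
  rw [← hn]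
  refine hstep.trans ?_
  have h4 : (n : ℝ) * 2 ^ n * (η' + 2 * H / J) = η / 2 + (n * 2 ^ n * 2) * H / J := by
    rw [hη']
    field_simp
  rw [h4]
  have h5 : (C + n * 2 ^ n * 2) * H / J = C * H / J + (n * 2 ^ n * 2) * H / J := by ring
  rw [h5]
  linarith

theorem PF_all (hτ : IsAct m τ) (k : ℕ) : ∃ C : ℝ, 0 ≤ C ∧ PF τ k C := by
  induction k with
  | zero => exact PF_zero hτ
  | succ k ih =>
    obtain ⟨C, hC, h⟩ := ih
    exact PF_succ hτ k C hC h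

end

end Pool.Agent.Lib.MP_3e612f_nt.ZE
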