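import Pool.Agent.Lib.MP_3e612f_nt.ZE.F.Avg

/-! The bound of Theorem F. -/

set_option autoImplicit false

namespace Pool.Agent.Lib.MP_3e612f_nt.ZE

open Finset MeasureTheory Filter Topology

/-- The bound of Theorem F of order `k + 1`. -/
def PF {X : Type} [MeasurableSpace X] (τ : ℤ → X → X) (k : ℕ) (C : ℝ) : Prop :=
  ∀ (R H J mm : ℕ), 1 ≤ H → 1 ≤ J → ∀ η : ℝ, 0 < η → ∃ H₀ : ℕ, ∀ N : Fin R → ℕ, (∀ l, H₀ ≤ N l) →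
    ∀ d : Fin R → X → ℝ, (∀ l, d l ∈ Dual τ (N l) k) → ∀ (x : Fin R → X) (w : ℕ → ℂ), (∀ n, ‖w n‖ ≤ 1) →
      ‖(∑ j ∈ range J, w j * ((∏ l, d l (τ ((mm : ℤ) * (j : ℤ)) (x l)) : ℝ) : ℂ)) / (J : ℂ)‖ ^ (2 ^ (k + 1)) ≤
        (∑ j ∈ range J, psi H k w j) / (J : ℝ) + C * H / J + η

end Pool.Agent.Lib.MP_3e612f_nt.ZE
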