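import Pool.Agent.Lib.MP_3e612f_nt.ZE.F.PFDef

/-! Theorem F of order 1. -/

set_option autoImplicit false

namespace Pool.Agent.Lib.MP_3e612f_nt.ZE

open Finset MeasureTheory Filter Topology

/-- The comparison of `w P` with `P` times the averages of `w`, for a slowly varying `P`. -/
private theorem PFZero_cmp (H J : ℕ) (hH : 1 ≤ H) (hJ : 1 ≤ J) (w : ℕ → ℂ) (hw : ∀ n, ‖w n‖ ≤ 1)
    (P : ℕ → ℝ) (hP : ∀ j, |P j| ≤ 1) (e : ℝ) (he : ∀ j s : ℕ, s < H → |P (j + s) - P j| ≤ e) :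
    ‖(∑ j ∈ range J, w j * (P j : ℂ)) / (J : ℂ) -
      (∑ j ∈ range J, (P j : ℂ) * ((∑ s ∈ range H, w (j + s)) / (H : ℂ))) / (J : ℂ)‖ ≤
        2 * H / J + e := by
  have hH0 : (0 : ℝ) < H := by exact_mod_cast hH
  have hJ0 : (0 : ℝ) < J := by exact_mod_cast hJ
  have hHC : (H : ℂ) ≠ 0 := by
    exact_mod_cast (show H ≠ 0 by omega)
  have hb : ∀ n, ‖w n * (P n : ℂ)‖ ≤ 1 := by
    intro n
    rw [norm_mul, Complex.norm_real, Real.norm_eq_abs]
    exact mul_le_one₀ (hw n) (abs_nonneg _) (hP n)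
  have h1 : ∀ s ∈ range H, ‖(∑ j ∈ range J, w j * (P j : ℂ)) / (J : ℂ) -
      (∑ j ∈ range J, w (j + s) * (P j : ℂ)) / (J : ℂ)‖ ≤ 2 * H / J + e := by
    intro s hs
    have hs' := Finset.mem_range.1 hs
    have h2 := avg_shift J s hJ (fun n => w n * (P n : ℂ)) hb
    rw [norm_sub_rev] at h2
    have h3 : ‖(∑ j ∈ range J, w (j + s) * (P (j + s) : ℂ)) / (J : ℂ) -
        (∑ j ∈ range J, w (j + s) * (P j : ℂ)) / (J : ℂ)‖ ≤ e := by
      rw [← sub_div, ← Finset.sum_sub_distrib, norm_div, Complex.norm_natCast, div_le_iff₀ hJ0]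
      refine (norm_sum_le _ _).trans ?_
      have h4 : ∀ j ∈ range J, ‖w (j + s) * (P (j + s) : ℂ) - w (j + s) * (P j : ℂ)‖ ≤ e := by
        intro j _
        rw [← mul_sub, norm_mul, ← Complex.ofReal_sub, Complex.norm_real, Real.norm_eq_abs]
        calc ‖w (j + s)‖ * |P (j + s) - P j| ≤ 1 * |P (j + s) - P j| :=
              mul_le_mul_of_nonneg_right (hw _) (abs_nonneg _)
          _ = |P (j + s) - P j| := one_mul _
          _ ≤ e := he j s hs'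
      refine (Finset.sum_le_sum h4).trans ?_
      rw [Finset.sum_const, Finset.card_range, nsmul_eq_mul, mul_comm]
    have h4 : (2 : ℝ) * s / J ≤ 2 * H / J := by
      have : (s : ℝ) ≤ H := by exact_mod_cast hs'.le
      gcongr
    calc ‖(∑ j ∈ range J, w j * (P j : ℂ)) / (J : ℂ) -
          (∑ j ∈ range J, w (j + s) * (P j : ℂ)) / (J : ℂ)‖
        ≤ ‖(∑ j ∈ range J, w j * (P j : ℂ)) / (J : ℂ) -
          (∑ j ∈ range J, w (j + s) * (P (j + s) : ℂ)) / (J : ℂ)‖ +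
          ‖(∑ j ∈ range J, w (j + s) * (P (j + s) : ℂ)) / (J : ℂ) -
          (∑ j ∈ range J, w (j + s) * (P j : ℂ)) / (J : ℂ)‖ := norm_sub_le_norm_sub_add_norm_sub _ _ _
      _ ≤ 2 * s / J + e := add_le_add h2 h3
      _ ≤ _ := by linarith
  have h5 : (∑ j ∈ range J, w j * (P j : ℂ)) / (J : ℂ) -
      (∑ j ∈ range J, (P j : ℂ) * ((∑ s ∈ range H, w (j + s)) / (H : ℂ))) / (J : ℂ) =
      (∑ s ∈ range H, ((∑ j ∈ range J, w j * (P j : ℂ)) / (J : ℂ) -
        (∑ j ∈ range J, w (j + s) * (P j : ℂ)) / (J : ℂ))) / (H : ℂ) := by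
    rw [Finset.sum_sub_distrib, Finset.sum_const, Finset.card_range, nsmul_eq_mul, sub_div,
      mul_div_cancel_left₀ _ hHC]
    congr 1
    rw [← Finset.sum_div, Finset.sum_comm, div_div, mul_comm (J : ℂ), ← div_div]
    congr 1
    rw [Finset.sum_div]
    refine Finset.sum_congr rfl fun j _ => ?_
    rw [Finset.sum_div, Finset.sum_div, Finset.mul_sum]
    refine Finset.sum_congr rfl fun s _ => ?_
    ring
  rw [h5, norm_div, Complex.norm_natCast, div_le_iff₀ hH0]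
  refine (norm_sum_le _ _).trans ((Finset.sum_le_sum h1).trans ?_)
  rw [Finset.sum_const, Finset.card_range, nsmul_eq_mul, mul_comm]

section
variable {X : Type} [MeasurableSpace X] {m : Measure X} [IsProbabilityMeasure m] {τ : ℤ → X → X}

/-- `k = 0`: `d_l(x) = E_{a,b<N_l} F_l(τ_{b-a} x)` is slowly varying along the orbit. -/
theorem PF_zero' (hτ : IsAct m τ) : ∃ C : ℝ, 0 ≤ C ∧ PF τ 0 C := by
  refine ⟨4, by norm_num, ?_⟩
  intro R H J mm hH hJ η hη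
  obtain ⟨H₀, hH₀⟩ := exists_nat_ge (max 1 (4 * mm * H * R / η))
  refine ⟨H₀, fun N hN d hd x w hw => ?_⟩
  have hH1 : (1 : ℝ) ≤ H₀ := (le_max_left _ _).trans hH₀
  have hH2 : 4 * mm * H * R / η ≤ (H₀ : ℝ) := (le_max_right _ _).trans hH₀
  have hN1 : ∀ l, 1 ≤ N l := by
    intro l
    have h1 : 1 ≤ H₀ := by exact_mod_cast hH1
    exact h1.trans (hN l)
  have hd1 : ∀ l y, |d l y| ≤ 1 := fun l y => (dual_meas hτ (N l) 0 (d l) (hd l)).2 y
  have hH0 : (0 : ℝ) < H := by exact_mod_cast hH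
  have hJ0 : (0 : ℝ) < J := by exact_mod_cast hJ
  obtain ⟨P, hPdef⟩ : ∃ P : ℕ → ℝ, ∀ j, P j = ∏ l, d l (τ ((mm : ℤ) * (j : ℤ)) (x l)) :=
    ⟨_, fun _ => rfl⟩
  have hP : ∀ j, |P j| ≤ 1 := by
    intro j
    rw [hPdef, Finset.abs_prod]
    exact Finset.prod_le_one (fun _ _ => abs_nonneg _) fun l _ => hd1 l _
  -- the functions are slowly varying
  have hstep : ∀ l (j s : ℕ), s < H →
      |d l (τ ((mm : ℤ) * ((j + s : ℕ) : ℤ)) (x l)) - d l (τ ((mm : ℤ) * (j : ℤ)) (x l))| ≤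
        2 * mm * H / H₀ := by
    intro l j s hs
    obtain ⟨F, -, hF1, hFd⟩ : ∃ F : X → ℝ, Measurable F ∧ (∀ x, |F x| ≤ 1) ∧
        d l = fun x => (∑ a ∈ range (N l), ∑ b ∈ range (N l),
          F (τ ((b : ℤ) - (a : ℤ)) x)) / (N l : ℝ) ^ 2 := hd l
    have hFd' : ∀ y, d l y = (∑ a ∈ range (N l), ∑ b ∈ range (N l),
          F (τ ((b : ℤ) - (a : ℤ)) y)) / (N l : ℝ) ^ 2 := fun y => congrFun hFd y
    have h1 := avg_shift2 (N l) 0 (mm * s) (hN1 l)
      (fun a b => F (τ ((b : ℤ) - (a : ℤ) + (mm : ℤ) * (j : ℤ)) (x l))) (fun a b => hF1 _)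
    have e1 : d l (τ ((mm : ℤ) * ((j + s : ℕ) : ℤ)) (x l)) =
        (∑ a ∈ range (N l), ∑ b ∈ range (N l), F (τ (((b + mm * s : ℕ) : ℤ) - ((a + 0 : ℕ) : ℤ) +
          (mm : ℤ) * (j : ℤ)) (x l))) / (N l : ℝ) ^ 2 := by
      rw [hFd' (τ ((mm : ℤ) * ((j + s : ℕ) : ℤ)) (x l))]
      congr 1
      refine Finset.sum_congr rfl fun a _ => Finset.sum_congr rfl fun b _ => ?_
      rw [← hτ.add]
      congr 2
      push_cast
      ring
    have e2 : d l (τ ((mm : ℤ) * (j : ℤ)) (x l)) =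
        (∑ a ∈ range (N l), ∑ b ∈ range (N l), F (τ ((b : ℤ) - (a : ℤ) +
          (mm : ℤ) * (j : ℤ)) (x l))) / (N l : ℝ) ^ 2 := by
      rw [hFd' (τ ((mm : ℤ) * (j : ℤ)) (x l))]
      congr 1
      refine Finset.sum_congr rfl fun a _ => Finset.sum_congr rfl fun b _ => ?_
      rw [← hτ.add]
    rw [e1, e2]
    refine h1.trans ?_
    have h2 : (H₀ : ℝ) ≤ N l := by exact_mod_cast hN l
    have h3 : (s : ℝ) ≤ H := by exact_mod_cast hs.le
    have h4 : (0 : ℝ) < H₀ := by linarith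
    push_cast
    rw [mul_zero, zero_div, zero_add]
    have h5 : 2 * ((mm : ℝ) * s) ≤ 2 * mm * H := by
      have : (mm : ℝ) * s ≤ mm * H := mul_le_mul_of_nonneg_left h3 (Nat.cast_nonneg _)
      linarith
    exact div_le_div₀ (by positivity) h5 h4 h2
  have he : ∀ j s : ℕ, s < H → |P (j + s) - P j| ≤ η / 2 := by
    intro j s hs
    rw [hPdef, hPdef]
    refine (prod_sub_le _ _ (fun l => hd1 l _) fun l => hd1 l _).trans ?_
    refine (Finset.sum_le_sum fun l _ => hstep l j s hs).trans ?_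
    rw [Finset.sum_const, Finset.card_univ, Fintype.card_fin, nsmul_eq_mul]
    have h4 : (0 : ℝ) < H₀ := by linarith
    rw [div_le_iff₀ hη] at hH2
    rw [mul_div_assoc', div_le_iff₀ h4]
    linarith
  have h1 := PFZero_cmp H J hH hJ w hw P hP (η / 2) he
  -- Cauchy-Schwarz
  obtain ⟨A, hA⟩ : ∃ A : ℂ, A = (∑ j ∈ range J, w j * (P j : ℂ)) / (J : ℂ) := ⟨_, rfl⟩
  obtain ⟨B, hB⟩ : ∃ B : ℂ, B = (∑ j ∈ range J, (P j : ℂ) *
    ((∑ s ∈ range H, w (j + s)) / (H : ℂ))) / (J : ℂ) := ⟨_, rfl⟩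
  rw [← hA, ← hB] at h1
  have hA1 : ‖A‖ ≤ 1 := by
    rw [hA, norm_div, Complex.norm_natCast, div_le_one hJ0]
    refine (norm_sum_le _ _).trans ?_
    have h2 : ∀ j ∈ range J, ‖w j * (P j : ℂ)‖ ≤ 1 := by
      intro n _
      rw [norm_mul, Complex.norm_real, Real.norm_eq_abs]
      exact mul_le_one₀ (hw n) (abs_nonneg _) (hP n)
    refine (Finset.sum_le_sum h2).trans ?_
    rw [Finset.sum_const, Finset.card_range, nsmul_eq_mul, mul_one]
  obtain ⟨u, hu⟩ : ∃ u : ℕ → ℝ, ∀ j, u j = ‖(∑ s ∈ range H, w (j + s)) / (H : ℂ)‖ :=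
    ⟨_, fun _ => rfl⟩
  have hu0 : ∀ j, 0 ≤ u j := fun j => by rw [hu]; exact norm_nonneg _
  have hu1 : ∀ j, u j ≤ 1 := by
    intro j
    rw [hu, norm_div, Complex.norm_natCast, div_le_one hH0]
    refine (norm_sum_le _ _).trans ?_
    refine (Finset.sum_le_sum fun s _ => hw (j + s)).trans ?_
    rw [Finset.sum_const, Finset.card_range, nsmul_eq_mul, mul_one]
  have hBu : ‖B‖ ≤ (∑ j ∈ range J, u j) / J := by
    rw [hB, norm_div, Complex.norm_natCast]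
    refine div_le_div_of_nonneg_right ?_ hJ0.le
    refine (norm_sum_le _ _).trans (Finset.sum_le_sum fun j _ => ?_)
    rw [norm_mul, Complex.norm_real, Real.norm_eq_abs, ← hu]
    exact mul_le_of_le_one_left (hu0 j) (hP j)
  have hB1 : ‖B‖ ≤ 1 := by
    refine hBu.trans ?_
    rw [div_le_one hJ0]
    refine (Finset.sum_le_sum fun j _ => hu1 j).trans ?_
    rw [Finset.sum_const, Finset.card_range, nsmul_eq_mul, mul_one]
  have hB2 : ‖B‖ ^ 2 ≤ (∑ j ∈ range J, psi H 0 w j) / (J : ℝ) := by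
    have h2 : ‖B‖ ^ 2 ≤ ((∑ j ∈ range J, u j) / J) ^ 2 :=
      pow_le_pow_left₀ (norm_nonneg _) hBu 2
    refine h2.trans ?_
    have h3 := sq_sum_le_card_mul_sum_sq (s := range J) (f := u)
    rw [Finset.card_range] at h3
    have h4 : ∑ j ∈ range J, psi H 0 w j = ∑ j ∈ range J, u j ^ 2 := by
      refine Finset.sum_congr rfl fun j _ => ?_
      rw [hu]
      rfl
    rw [h4, div_pow, div_le_div_iff₀ (by positivity) hJ0]
    nlinarith
  have h6 : ‖A‖ ≤ ‖B‖ + (2 * H / J + η / 2) := by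
    have h7 := norm_le_norm_add_norm_sub' A B
    linarith
  have h7 : ‖A‖ ^ 2 ≤ ‖B‖ ^ 2 + 2 * (2 * H / J + η / 2) := by
    have h8 : 0 ≤ 2 * (H : ℝ) / J + η / 2 := by positivity
    have h9 := norm_nonneg A
    have h10 := norm_nonneg B
    rcases le_total ‖A‖ ‖B‖ with h | h
    · nlinarith
    · nlinarith
  have e3 : (∑ j ∈ range J, w j * ((∏ l, d l (τ ((mm : ℤ) * (j : ℤ)) (x l)) : ℝ) : ℂ)) / (J : ℂ) =
      A := by
    rw [hA]
    congr 1
    exact Finset.sum_congr rfl fun j _ => by rw [hPdef]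
  rw [e3]
  have e4 : (2 : ℕ) ^ (0 + 1) = 2 := by norm_num
  rw [e4]
  have e5 : 4 * (H : ℝ) / J = 2 * (2 * H / J) := by ring
  rw [e5]
  linarith

end

end Pool.Agent.Lib.MP_3e612f_nt.ZE
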